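import Pool.Agent.H.MP_6350a9_co.Win

namespace Pool.Agent.H.MP_6350a9_co

open Classical

variable {g : ℕ} {w : ℕ → Bool}

/-- the offsets used in a square -/
def J (g x b j z a a' : ℕ) : ℕ :=
  j + z * 2 ^ (g + (g + 3) + g) + (a * (2 ^ g * x) + a' * (2 ^ (b + g) * x))

lemma plain' (M : ℕ) {C T x z b c j A T' H : ℕ} (hC : C < 2 ^ T) (hx : 2 * x < 2 ^ (g + 3))
    (hb : b = g + (g + 3) + g + 2 + c) (hT : g + (g + 3) + g + 2 ≤ T')
    (hA : (A + j + z * 2 ^ (g + (g + 3) + g)) % 2 ^ (g + (g + 3) + g + 2) <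
      3 * 2 ^ (g + (g + 3) + g)) :
    Q g w M (fun a a' => C + 2 ^ T * ((A + J g x b j z a a' * 1) + 2 ^ T' * H)) = 0 := by
  set p := g + (g + 3) + g with hp
  obtain ⟨e, rfl⟩ := Nat.exists_eq_add_of_le hT
  have h := plain (g := g) (w := w) M (C := C) (T := T) (β := A + j + z * 2 ^ p + 2 ^ (p + 2 + e) * H)
    (u1 := 2 ^ g * x) (u2 := 2 ^ c * x) (r := p + 2) hC (by
      rw [pow_add 2 (p + 2) e, mul_assoc, Nat.add_mul_mod_self_left]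
      have h1 : 2 ^ g * x < 2 ^ p := by
        calc 2 ^ g * x < 2 ^ g * 2 ^ (g + 3) :=
              Nat.mul_lt_mul_of_pos_left (by omega) (by positivity)
          _ = 2 ^ (g + (g + 3)) := by rw [← pow_add]
          _ ≤ 2 ^ p := Nat.pow_le_pow_right (by norm_num) (by omega)
      have h2 : 2 ^ (p + 2) = 4 * 2 ^ p := by ring
      omega)
  rw [← h]
  congr 1
  funext a a'
  unfold J
  rw [hb, ← hp]
  ring

lemma special' (M : ℕ) {C T x z b c j A T' H H0 : ℕ} (hC : C < 2 ^ T) (hx : 2 * x < 2 ^ (g + 3))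
    (hz : z < 3) (hb : b = g + (g + 3) + g + 2 + c) (hT : 3 * b ≤ T')
    (hA : A + j * (2 ^ b + 1) = 2 ^ (3 * b) * H0) :
    Q g w M (fun a a' => C + 2 ^ T * ((A + J g x b j z a a' * (2 ^ b + 1)) + 2 ^ T' * H)) =
      Φ g w M (2 ^ (T + b + g) * (2 * x)) + Φ g w M 0 := by
  obtain ⟨e, rfl⟩ := Nat.exists_eq_add_of_le hT
  rw [← special (g := g) (w := w) M (H := H0 + 2 ^ e * H) hC hx hz hb]
  congr 1
  funext a a'
  unfold J
  have : 2 ^ (3 * b) * (H0 + 2 ^ e * H) = A + j * (2 ^ b + 1) + 2 ^ (3 * b + e) * H := by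
    rw [hA]; ring
  rw [this]
  ring

lemma J_mod (x b j z a a' y B : ℕ) :
    (B + J g x b j z a a' * y) % 2 ^ g = (B + J g x b j z 0 0 * y) % 2 ^ g := by
  have : B + J g x b j z a a' * y = (B + J g x b j z 0 0 * y) +
      2 ^ g * ((a * x + a' * (2 ^ b * x)) * y) := by
    unfold J; ring
  rw [this, mod_g]

lemma J_le {x b c j z a a' : ℕ} (hx : 2 * x < 2 ^ (g + 3)) (hz : z < 3)
    (hb : b = g + (g + 3) + g + 2 + c) (hj : j < 2 ^ (3 * b)) (ha : a ≤ 1) (ha' : a' ≤ 1) :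
    J g x b j z a a' ≤ 4 * 2 ^ (3 * b) := by
  unfold J
  have h1 : z * 2 ^ (g + (g + 3) + g) ≤ 2 ^ (3 * b) := by
    calc z * 2 ^ (g + (g + 3) + g) ≤ 2 * 2 ^ (g + (g + 3) + g) := Nat.mul_le_mul_right _ (by omega)
      _ = 2 ^ (g + (g + 3) + g + 1) := by ring
      _ ≤ _ := Nat.pow_le_pow_right (by norm_num) (by omega)
  have h2 : ∀ s, s ≤ b + g → 2 ^ s * x ≤ 2 ^ (3 * b) := by
    intro s hs
    calc 2 ^ s * x ≤ 2 ^ s * 2 ^ (g + 3) := Nat.mul_le_mul_left _ (by omega)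
      _ = 2 ^ (s + (g + 3)) := by rw [← pow_add]
      _ ≤ _ := Nat.pow_le_pow_right (by norm_num) (by omega)
  have h3 : a * (2 ^ g * x) ≤ 2 ^ (3 * b) :=
    (Nat.mul_le_mul_right _ ha).trans (by rw [one_mul]; exact h2 g (by omega))
  have h4 : a' * (2 ^ (b + g) * x) ≤ 2 ^ (3 * b) :=
    (Nat.mul_le_mul_right _ ha').trans (by rw [one_mul]; exact h2 _ le_rfl)
  omega

lemma square (M : ℕ) {x b T1 T2 y0 y1 n0 A0 A1 A2 : ℕ} (hx : 2 * x < 2 ^ (g + 3))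
    (hb : 3 * g + 5 ≤ b) (h1 : 3 * b ≤ T1) (h2 : 3 * b ≤ T2)
    (hy : (y0 = 2 ^ b + 1 ∧ y1 = 1) ∨ (y0 = 1 ∧ y1 = 2 ^ b + 1))
    (hn : n0 < 2 ^ g) (hA0 : A0 + 4 * 2 ^ (3 * b) * y0 < 2 ^ T1)
    (hA1 : A1 + 4 * 2 ^ (3 * b) * y1 < 2 ^ T2) :
    ∃ f : ℕ → ℕ → ℕ, (∀ a a', a ≤ 1 → a' ≤ 1 → f a a' ≤ 4 * 2 ^ (3 * b)) ∧
      ∃ s, g ≤ s ∧ s ≤ g + T1 + b + g ∧
      Q g w M (fun a a' => n0 + 2 ^ g * (A0 + 2 ^ T1 * (A1 + 2 ^ T2 * A2)) +
        f a a' * (2 ^ g * (y0 + 2 ^ T1 * (y1 + 2 ^ T2)))) =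
        Φ g w M (2 ^ s * (2 * x)) + Φ g w M 0 := by
  obtain ⟨c, hc⟩ : ∃ c, b = g + (g + 3) + g + 2 + c := ⟨b - (3 * g + 5), by omega⟩
  have main : ∀ j z, j < 2 ^ (3 * b) → z < 3 →
      Q g w M (fun a a' => n0 + 2 ^ g * (A0 + 2 ^ T1 * (A1 + 2 ^ T2 * A2)) +
        J g x b j z a a' * (2 ^ g * (y0 + 2 ^ T1 * (y1 + 2 ^ T2)))) =
      Q g w M (fun a a' => n0 + 2 ^ g * ((A0 + J g x b j z a a' * y0) +
        2 ^ T1 * ((A1 + J g x b j z 0 0 * y1) + 2 ^ T2 * (A2 + J g x b j z 0 0 * 1)))) +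
      (Q g w M (fun a a' => (n0 + 2 ^ g * (A0 + J g x b j z 0 0 * y0)) + 2 ^ (g + T1) *
        ((A1 + J g x b j z a a' * y1) + 2 ^ T2 * (A2 + J g x b j z 0 0 * 1))) +
      Q g w M (fun a a' => ((n0 + 2 ^ g * (A0 + J g x b j z 0 0 * y0)) + 2 ^ (g + T1) *
        (A1 + J g x b j z 0 0 * y1)) + 2 ^ (g + T1 + T2) *
          ((A2 + J g x b j z a a' * 1) + 2 ^ (g + (g + 3) + g + 2) * 0))) ∧
      n0 + 2 ^ g * (A0 + J g x b j z 0 0 * y0) < 2 ^ (g + T1) ∧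
      (n0 + 2 ^ g * (A0 + J g x b j z 0 0 * y0)) + 2 ^ (g + T1) *
        (A1 + J g x b j z 0 0 * y1) < 2 ^ (g + T1 + T2) := by
    intro j z hj hz
    have l0 : ∀ a a', a ≤ 1 → a' ≤ 1 →
        n0 + 2 ^ g * (A0 + J g x b j z a a' * y0) < 2 ^ (g + T1) := fun a a' ha ha' =>
      lt_two hn (lt_of_le_of_lt (Nat.add_le_add_left
        (Nat.mul_le_mul_right _ (J_le hx hz hc hj ha ha')) _) hA0)
    have l1 : ∀ a a', a ≤ 1 → a' ≤ 1 → (n0 + 2 ^ g * (A0 + J g x b j z 0 0 * y0)) +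
        2 ^ (g + T1) * (A1 + J g x b j z a a' * y1) < 2 ^ (g + T1 + T2) := fun a a' ha ha' =>
      lt_two (l0 0 0 (by omega) (by omega)) (lt_of_le_of_lt (Nat.add_le_add_left
        (Nat.mul_le_mul_right _ (J_le hx hz hc hj ha ha')) _) hA1)
    refine ⟨?_, l0 0 0 (by omega) (by omega), l1 0 0 (by omega) (by omega)⟩
    have p1 := peel (g := g) (w := w) M (g + T1)
      (fun a a' => n0 + 2 ^ g * (A0 + J g x b j z a a' * y0))
      (fun a a' => (A1 + 2 ^ T2 * A2) + J g x b j z a a' * (y1 + 2 ^ T2)) l0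
      (fun a a' => J_mod _ _ _ _ _ _ _ _)
    have p2 := peel (g := g) (w := w) M (g + T1 + T2)
      (fun a a' => (n0 + 2 ^ g * (A0 + J g x b j z 0 0 * y0)) +
        2 ^ (g + T1) * (A1 + J g x b j z a a' * y1))
      (fun a a' => A2 + J g x b j z a a' * 1) l1 (fun a a' => J_mod _ _ _ _ _ _ _ _)
    beta_reduce at p1 p2
    refine Eq.trans ?_ (p1.trans ?_)
    · congr 1; funext a a'; ring
    · congr 1
      · congr 1; funext a a'; ring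
      · refine Eq.trans ?_ (p2.trans ?_)
        · congr 1; funext a a'; ring
        · congr 1
          · congr 1; funext a a'; ring
  rcases hy with ⟨rfl, rfl⟩ | ⟨rfl, rfl⟩
  · obtain ⟨j, H0, hj, hH⟩ := normal A0 b (3 * b) (by omega)
    obtain ⟨z, hz, s1, s2⟩ := stopper (g + (g + 3) + g) (A1 + j) (A2 + j)
    obtain ⟨m1, m2, m3⟩ := main j z hj hz
    refine ⟨J g x b j z, fun a a' ha ha' => J_le hx hz hc hj ha ha', g + b + g, by omega, by omega, ?_⟩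
    rw [m1, special' M hn hx hz hc h1 hH, plain' M m2 hx hc (by omega) s1,
      plain' M m3 hx hc le_rfl s2, add_zero, add_zero]
  · obtain ⟨j, H0, hj, hH⟩ := normal A1 b (3 * b) (by omega)
    obtain ⟨z, hz, s1, s2⟩ := stopper (g + (g + 3) + g) (A0 + j) (A2 + j)
    obtain ⟨m1, m2, m3⟩ := main j z hj hz
    refine ⟨J g x b j z, fun a a' ha ha' => J_le hx hz hc hj ha ha', g + T1 + b + g, by omega,
      le_rfl, ?_⟩
    rw [m1, special' M m2 hx hz hc h2 hH, plain' M hn hx hc (by omega) s1,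
      plain' M m3 hx hc le_rfl s2, add_zero, zero_add]

lemma window (n R y0 y1 T1 T2 : ℕ) (h0 : 2 * (4 * R * y0) ≤ 2 ^ T1) (h1 : 2 * (2 * R * y1) ≤ 2 ^ T2) :
    ∃ l n0 A0 A1 A2, 2 * R ≤ l ∧ l ≤ 9 * R ∧ n0 < 2 ^ g ∧ A0 + R * y0 < 2 ^ T1 ∧
      A1 + R * y1 < 2 ^ T2 ∧
      n + l * (2 ^ g * (y0 + 2 ^ T1 * (y1 + 2 ^ T2))) =
        n0 + 2 ^ g * (A0 + 2 ^ T1 * (A1 + 2 ^ T2 * A2)) ∧
      (n + l * (2 ^ g * (y0 + 2 ^ T1 * (y1 + 2 ^ T2)))).size =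
        (n + (l + R) * (2 ^ g * (y0 + 2 ^ T1 * (y1 + 2 ^ T2)))).size := by
  set d := 2 ^ g * (y0 + 2 ^ T1 * (y1 + 2 ^ T2)) with hd
  set N := n + 2 * R * d with hN
  obtain ⟨s1, A0, c1, hs1, e1, b1⟩ := nowrap (A := N / 2 ^ g % 2 ^ T1) (y := y0) (ρ := 4 * R)
    (Nat.mod_lt _ (by positivity)) h0
  set B := N / 2 ^ g / 2 ^ T1 + c1 + s1 * (y1 + 2 ^ T2) with hB
  obtain ⟨s2, A1, c2, hs2, e2, b2⟩ := nowrap (A := B % 2 ^ T2) (y := y1) (ρ := 2 * R)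
    (Nat.mod_lt _ (by positivity)) h1
  have E1 : N + s1 * d = N % 2 ^ g + 2 ^ g * (A0 + 2 ^ T1 * B) := by
    have a1 := Nat.mod_add_div N (2 ^ g)
    have a2 := Nat.mod_add_div (N / 2 ^ g) (2 ^ T1)
    rw [hB, hd]
    zify at a1 a2 e1 ⊢
    linear_combination (-1 : ℤ) * a1 - 2 ^ g * a2 + 2 ^ g * e1
  have E2 : ∀ s3, n + (2 * R + s1 + s2 + s3) * d = N % 2 ^ g + 2 ^ g * ((A0 + (s2 + s3) * y0) +
      2 ^ T1 * ((A1 + s3 * y1) + 2 ^ T2 * (B / 2 ^ T2 + c2 + s2 + s3))) := by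
    intro s3
    have a1 := Nat.mod_add_div B (2 ^ T2)
    have a2 : n + (2 * R + s1 + s2 + s3) * d = N + s1 * d + (s2 + s3) * d := by rw [hN]; ring
    rw [a2, E1]
    generalize B % 2 ^ T2 = u at *
    generalize B / 2 ^ T2 = u' at *
    rw [← a1, hd]
    zify at e2 ⊢
    linear_combination 2 ^ g * 2 ^ T1 * e2
  have hsz : (n + (2 * R + s1 + s2 + R + R) * d).size ≤ (n + (2 * R + s1 + s2) * d).size + 1 := by
    rw [Nat.size_le, pow_succ]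
    have := Nat.lt_size_self (n + (2 * R + s1 + s2) * d)
    nlinarith [Nat.zero_le (s1 * d), Nat.zero_le (s2 * d)]
  have m1 : (n + (2 * R + s1 + s2) * d).size ≤ (n + (2 * R + s1 + s2 + R) * d).size :=
    Nat.size_le_size (by nlinarith [Nat.zero_le (R * d)])
  have m2 : (n + (2 * R + s1 + s2 + R) * d).size ≤ (n + (2 * R + s1 + s2 + R + R) * d).size :=
    Nat.size_le_size (by nlinarith [Nat.zero_le (R * d)])
  have hn0 : N % 2 ^ g < 2 ^ g := Nat.mod_lt _ (by positivity)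
  have k1 : s2 * y0 ≤ 2 * R * y0 := Nat.mul_le_mul_right _ hs2
  by_cases hc : (n + (2 * R + s1 + s2) * d).size = (n + (2 * R + s1 + s2 + R) * d).size
  · exact ⟨2 * R + s1 + s2 + 0, _, _, _, _, by omega, by omega, hn0, by nlinarith, by nlinarith,
      E2 0, hc⟩
  · exact ⟨2 * R + s1 + s2 + R, _, _, _, _, by omega, by omega, hn0, by nlinarith, by nlinarith,
      E2 R, by omega⟩

theorem key (χ : ℕ → ZMod 2) (Mf : ℕ → ℕ) (hM : ∀ s, s + 1 ≤ Mf s + g)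
    (hχ : ∀ N, χ N = Φ g w (Mf N.size) N) {x : ℕ} (hx : 2 * x < 2 ^ (g + 3))
    (base : ∀ s M, g ≤ s → s + g + 4 ≤ M → Φ g w M (2 ^ s * (2 * x)) + Φ g w M 0 = 1)
    {b T1 T2 y0 y1 : ℕ} (hb : 3 * g + 5 ≤ b) (h1 : 4 * b + 6 ≤ T1) (h2 : 4 * b + 6 ≤ T2)
    (hy : (y0 = 2 ^ b + 1 ∧ y1 = 1) ∨ (y0 = 1 ∧ y1 = 2 ^ b + 1)) (n : ℕ) :
    ∃ l, 1 ≤ l ∧ l ≤ 40 * 2 ^ (3 * b) ∧
      χ (n + l * (2 ^ g * (y0 + 2 ^ T1 * (y1 + 2 ^ T2)))) ≠ χ n := by
  by_contra hcon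
  push Not at hcon
  have hb0 : 1 ≤ 2 ^ b := Nat.one_le_two_pow
  have hR : 0 < 2 ^ (3 * b) := by positivity
  have hy0 : y0 ≤ 2 * 2 ^ b := by omega
  have hy1 : y1 ≤ 2 * 2 ^ b := by omega
  have hG : ∀ T y, 4 * b + 6 ≤ T → y ≤ 2 * 2 ^ b → 2 * (4 * (4 * 2 ^ (3 * b)) * y) ≤ 2 ^ T := by
    intro T y hT hy
    calc 2 * (4 * (4 * 2 ^ (3 * b)) * y) ≤ 2 * (4 * (4 * 2 ^ (3 * b)) * (2 * 2 ^ b)) := by gcongr
      _ = 2 ^ (4 * b + 6) := by ring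
      _ ≤ _ := Nat.pow_le_pow_right (by norm_num) hT
  obtain ⟨l, n0, A0, A1, A2, l1, l2, hn0, hA0, hA1, e, hs⟩ := window (g := g) n (4 * 2 ^ (3 * b)) y0 y1 T1 T2
    (hG _ _ h1 hy0) (by have := hG _ _ h2 hy1; nlinarith [Nat.zero_le (2 ^ (3 * b) * y1)])
  set d := 2 ^ g * (y0 + 2 ^ T1 * (y1 + 2 ^ T2)) with hd
  set S := (n + l * d).size with hS
  obtain ⟨f, hf, s, s1, s2, hQ⟩ := square (w := w) (Mf S) (A2 := A2) hx hb (by omega) (by omega) hy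
    hn0 hA0 hA1
  have hSl : g + T1 + T2 < S := by
    rw [hS, Nat.lt_size]
    calc 2 ^ (g + T1 + T2) = 2 ^ g * (2 ^ T1 * 2 ^ T2) := by ring
      _ ≤ d := by
        rw [hd]
        exact Nat.mul_le_mul_left _ ((Nat.mul_le_mul_left _ (Nat.le_add_left _ _)).trans
          (Nat.le_add_left _ _))
      _ ≤ n + l * d := by
        have : 1 * d ≤ l * d := Nat.mul_le_mul_right _ (by omega)
        omega
  have hMS := hM S
  rw [base s _ s1 (by omega), ← e, ← hd] at hQ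
  have hv : ∀ a a', a ≤ 1 → a' ≤ 1 → Φ g w (Mf S) (n + l * d + f a a' * d) = χ n := by
    intro a a' ha ha'
    have := hf a a' ha ha'
    have e1 : n + l * d + f a a' * d = n + (l + f a a') * d := by ring
    have z1 : (n + (l + f a a') * d).size = S := by
      apply le_antisymm
      · rw [hs]
        exact Nat.size_le_size (Nat.add_le_add_left (Nat.mul_le_mul_right _ (by omega)) _)
      · exact Nat.size_le_size (Nat.add_le_add_left (Nat.mul_le_mul_right _ (by omega)) _)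
    rw [e1, ← hcon (l + f a a') (by omega) (by omega), hχ, z1]
  unfold Q at hQ
  beta_reduce at hQ
  rw [hv 0 0 (by omega) (by omega), hv 1 0 (by omega) (by omega), hv 0 1 (by omega) (by omega),
    hv 1 1 (by omega) (by omega)] at hQ
  have : (1 : ZMod 2) = 0 := by linear_combination -hQ + 2 * two_eq (χ n)
  exact absurd this (by decide)

end Pool.Agent.H.MP_6350a9_co
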