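import Pool.Agent.H.MP_6350a9_co.Win

namespace Pool.Agent.H.MP_6350a9_co

open Classical

variable {g : ℕ} {w : ℕ → Bool}

noncomputable def ψ (g : ℕ) (w : ℕ → Bool) (M N : ℕ) : ZMod 2 := Φ g w M N + Φ g w M 0

lemma mt_two (N i : ℕ) : mt g w (2 * N) (i + 1) ↔ mt g w N i := by
  refine forall_congr' fun k => forall_congr' fun _ => ?_
  rw [show i + 1 + k = (i + k) + 1 by ring, Nat.testBit_succ,
    Nat.mul_div_cancel_left _ (by norm_num : 0 < 2)]

lemma mt_zero (i j : ℕ) : mt g w 0 i ↔ mt g w 0 j := by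
  simp [mt]

lemma ψ_two (M : ℕ) {y : ℕ} (hy : y % 2 ^ g = 0) : ψ g w (M + 1) (2 * y) = ψ g w M y := by
  unfold ψ Φ
  rw [Finset.sum_range_succ', Finset.sum_range_succ']
  have h0 : mt g w (2 * y) 0 ↔ mt g w 0 0 := by
    refine forall_congr' fun k => forall_congr' fun hk => ?_
    rw [zero_add, tb_mod (H := 2 * y) (H' := 0) (g := g) (by rw [Nat.mul_mod, hy]; simp) hk]
  simp only [mt_two, h0, mt_zero _ 0]
  linear_combination two_eq (if mt g w 0 0 then (1 : ZMod 2) else 0)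

lemma ψ_succ {M y : ℕ} (hy : y < 2 ^ M) : ψ g w (M + 1) y = ψ g w M y := by
  unfold ψ Φ
  rw [Finset.sum_range_succ, Finset.sum_range_succ]
  have h0 : mt g w y M ↔ mt g w 0 M := by
    refine forall_congr' fun k => forall_congr' fun hk => ?_
    rw [Nat.testBit_lt_two_pow (hy.trans_le (Nat.pow_le_pow_right (by norm_num) (by omega))),
      Nat.zero_testBit]
  simp only [h0]
  linear_combination two_eq (if mt g w 0 M then (1 : ZMod 2) else 0)

lemma ψ_shift {y β : ℕ} (hy : y % 2 ^ g = 0) (hβ : y < 2 ^ β) (t M : ℕ) (hM : t + β ≤ M) :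
    ψ g w M (2 ^ t * y) = ψ g w β y := by
  have h1 : ∀ c, ψ g w (β + c) y = ψ g w β y := by
    intro c
    induction c with
    | zero => rfl
    | succ c ih =>
      rw [← add_assoc, ψ_succ (hβ.trans_le (Nat.pow_le_pow_right (by norm_num) (by omega))), ih]
  have h2 : ∀ t M, ψ g w (M + t) (2 ^ t * y) = ψ g w M y := by
    intro t M
    induction t with
    | zero => simp
    | succ t ih =>
      rw [← add_assoc, pow_succ', mul_assoc, ψ_two _ (by rw [Nat.mul_mod, hy]; simp), ih]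
  obtain ⟨c, rfl⟩ := Nat.exists_eq_add_of_le hM
  rw [show t + β + c = (β + c) + t by ring, h2, h1]

lemma ψ_add (M : ℕ) {r L H : ℕ} (hL : L < 2 ^ r) (hH : H % 2 ^ g = 0) :
    ψ g w M (L + 2 ^ r * H) = ψ g w M L + ψ g w M (2 ^ r * H) := by
  have h := sep (g := g) (w := w) M (r := r) (L := L) (L' := 0) (H := H) (H' := 0) hL
    (by positivity) (by simp [hH])
  simp only [mul_zero, add_zero, zero_add] at h
  unfold ψ
  linear_combination h - two_eq (Φ g w M 0) + two_eq (Φ g w M 0) - two_eq (Φ g w M 0)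

lemma four (M : ℕ) {b T1 T2 β l R : ℕ} (h1 : b ≤ T1) (h2 : 2 * b ≤ T2) (hβ : g + β ≤ b)
    (hl : l < 2 ^ β) (hM : T1 + T2 + b ≤ M) :
    Φ g w M (2 ^ (T1 + T2 + b + g) * R + l * (2 ^ g * (1 + 2 ^ T1 * ((2 ^ b + 1) + 2 ^ T2)))) =
      Φ g w M (2 ^ (T1 + T2 + b + g) * R) := by
  set y := 2 ^ g * l with hy
  have y0 : y % 2 ^ g = 0 := by simp [hy]
  have y1 : y < 2 ^ b := by
    calc y < 2 ^ g * 2 ^ β := Nat.mul_lt_mul_of_pos_left hl (by positivity)
      _ = 2 ^ (g + β) := by rw [pow_add]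
      _ ≤ _ := Nat.pow_le_pow_right (by norm_num) hβ
  have y2 : ∀ t r, t + b ≤ r → 2 ^ t * y < 2 ^ r := by
    intro t r h
    calc 2 ^ t * y < 2 ^ t * 2 ^ b := Nat.mul_lt_mul_of_pos_left y1 (by positivity)
      _ = 2 ^ (t + b) := by rw [pow_add]
      _ ≤ _ := Nat.pow_le_pow_right (by norm_num) h
  obtain ⟨c, rfl⟩ : ∃ c, T2 = b + c := ⟨T2 - b, by omega⟩
  have md : ∀ u, (2 ^ g * u) % 2 ^ g = 0 := fun u => by simp
  have a1 := ψ_add (g := g) (w := w) M (y2 0 T1 (by omega))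
    (md (l + 2 ^ b * (l + 2 ^ c * (l + 2 ^ b * R))))
  have a2 := ψ_add (g := g) (w := w) M (y2 T1 (T1 + b) (by omega))
    (md (l + 2 ^ c * (l + 2 ^ b * R)))
  have a3 := ψ_add (g := g) (w := w) M (y2 (T1 + b) (T1 + b + c) (by omega))
    (md (l + 2 ^ b * R))
  have a4 := ψ_add (g := g) (w := w) M (y2 (T1 + b + c) (T1 + b + c + b) (by omega)) (md R)
  rw [ψ_shift y0 y1 _ _ (by omega)] at a1 a2 a3 a4
  have e1 : 2 ^ (T1 + (b + c) + b + g) * R + l * (2 ^ g * (1 + 2 ^ T1 * ((2 ^ b + 1) + 2 ^ (b + c)))) =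
      2 ^ 0 * y + 2 ^ T1 * (2 ^ g * (l + 2 ^ b * (l + 2 ^ c * (l + 2 ^ b * R)))) := by
    rw [hy]; ring
  have e2 : 2 ^ T1 * (2 ^ g * (l + 2 ^ b * (l + 2 ^ c * (l + 2 ^ b * R)))) =
      2 ^ T1 * y + 2 ^ (T1 + b) * (2 ^ g * (l + 2 ^ c * (l + 2 ^ b * R))) := by
    rw [hy]; ring
  have e3 : 2 ^ (T1 + b) * (2 ^ g * (l + 2 ^ c * (l + 2 ^ b * R))) =
      2 ^ (T1 + b) * y + 2 ^ (T1 + b + c) * (2 ^ g * (l + 2 ^ b * R)) := by
    rw [hy]; ring
  have e4 : 2 ^ (T1 + b + c) * (2 ^ g * (l + 2 ^ b * R)) =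
      2 ^ (T1 + b + c) * y + 2 ^ (T1 + b + c + b) * (2 ^ g * R) := by
    rw [hy]; ring
  have e5 : 2 ^ (T1 + (b + c) + b + g) * R = 2 ^ (T1 + b + c + b) * (2 ^ g * R) := by ring
  rw [← e2] at a2
  rw [← e3] at a3
  rw [← e4] at a4
  rw [e1, e5]
  have : ψ g w M (2 ^ 0 * y + 2 ^ T1 * (2 ^ g * (l + 2 ^ b * (l + 2 ^ c * (l + 2 ^ b * R))))) =
      ψ g w M (2 ^ (T1 + b + c + b) * (2 ^ g * R)) := by
    linear_combination a1 + a2 + a3 + a4 + 2 * two_eq (ψ g w b y)
  exact add_right_cancel this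

lemma base_one (h : ∃ k, k < g ∧ w k = true) : ∃ x, 2 * x < 2 ^ (g + 3) ∧
    ∀ s M, g ≤ s → s + g + 4 ≤ M → Φ g w M (2 ^ s * (2 * x)) + Φ g w M 0 = 1 := by
  have hx : ∀ j, (Nat.ofBits fun i : Fin g => w i).testBit j = (decide (j < g) && w j) := by
    intro j
    rw [Nat.testBit_ofBits]
    split_ifs with h <;> simp [h]
  have hlt := Nat.ofBits_lt_two_pow (fun i : Fin g => w i)
  refine ⟨Nat.ofBits fun i : Fin g => w i, by rw [pow_add]; omega, fun s M _ hM => ?_⟩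
  generalize (Nat.ofBits fun i : Fin g => w i) = x at *
  have h0 : Φ g w M 0 = 0 := by
    refine Finset.sum_eq_zero fun i _ => if_neg fun hm => ?_
    obtain ⟨k, hk, hw⟩ := h
    have := hm k hk
    simp [hw] at this
  have hb : ∀ j, (2 ^ s * (2 * x)).testBit j =
      (decide (s + 1 ≤ j) && (decide (j - (s + 1) < g) && w (j - (s + 1)))) := by
    intro j
    rw [← mul_assoc, ← pow_succ, Nat.testBit_two_pow_mul, hx]
  have hm : ∀ i, mt g w (2 ^ s * (2 * x)) i ↔ i = s + 1 := by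
    intro i
    constructor
    · intro hm
      have k1 := Nat.find_spec h
      have m1 := hm _ k1.1
      rw [hb, k1.2] at m1
      simp only [Bool.and_eq_true, decide_eq_true_eq] at m1
      have n1 := Nat.find_min' h ⟨m1.2.1, m1.2.2⟩
      have k2 : Nat.findGreatest (fun k => k < g ∧ w k = true) g < g ∧
          w (Nat.findGreatest (fun k => k < g ∧ w k = true) g) = true :=
        Nat.findGreatest_spec (P := fun k => k < g ∧ w k = true) k1.1.le k1
      have m2 := hm _ k2.1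
      rw [hb, k2.2] at m2
      simp only [Bool.and_eq_true, decide_eq_true_eq] at m2
      have n2 := Nat.le_findGreatest (P := fun k => k < g ∧ w k = true) m2.2.1.le ⟨m2.2.1, m2.2.2⟩
      omega
    · rintro rfl k hk
      rw [hb]
      simp [hk]
  rw [h0, add_zero]
  unfold Φ
  simp only [hm]
  rw [Finset.sum_ite_eq', if_pos (Finset.mem_range.2 (by omega))]

lemma base_zero (hg : 0 < g) (h : ∀ k, k < g → w k = false) : ∃ x, 2 * x < 2 ^ (g + 3) ∧
    ∀ s M, g ≤ s → s + g + 4 ≤ M → Φ g w M (2 ^ s * (2 * x)) + Φ g w M 0 = 1 := by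
  have key : ∀ m, 0 < m → m ≤ 2 → ∀ s M, g ≤ s → s + g + 4 ≤ M →
      Φ g w M (2 ^ s * (2 * (2 ^ m - 1))) + Φ g w M 0 = ((g + m - 1 : ℕ) : ZMod 2) := by
    intro m hm hm2 s M hs hM
    have hb : ∀ j, (2 ^ s * (2 * (2 ^ m - 1))).testBit j =
        (decide (s + 1 ≤ j) && decide (j - (s + 1) < m)) := by
      intro j
      rw [← mul_assoc, ← pow_succ, Nat.testBit_two_pow_mul, Nat.testBit_two_pow_sub_one]
    have hm : ∀ i, mt g w (2 ^ s * (2 * (2 ^ m - 1))) i ↔ i ∉ Finset.Ico (s + 2 - g) (s + 1 + m) := by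
      intro i
      rw [Finset.mem_Ico]
      constructor
      · intro hm hi
        have := hm (s + 1 - i) (by omega)
        rw [hb, h _ (by omega)] at this
        simp only [Bool.and_eq_false_iff, decide_eq_false_iff_not] at this
        omega
      · intro hi k hk
        rw [hb, h k hk]
        simp only [Bool.and_eq_false_iff, decide_eq_false_iff_not]
        omega
    have h0 : ∀ i, mt g w 0 i := fun i k hk => by simp [h k hk]
    unfold Φ
    rw [← Finset.sum_add_distrib]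
    have : ∀ i ∈ Finset.range M, ((if mt g w (2 ^ s * (2 * (2 ^ m - 1))) i then (1 : ZMod 2) else 0) +
        if mt g w 0 i then 1 else 0) = if i ∈ Finset.Ico (s + 2 - g) (s + 1 + m) then 1 else 0 := by
      intro i _
      rw [if_pos (h0 i)]
      by_cases hi : i ∈ Finset.Ico (s + 2 - g) (s + 1 + m)
      · rw [if_neg (fun h => (hm i).1 h hi), if_pos hi, zero_add]
      · rw [if_pos ((hm i).2 hi), if_neg hi]; exact two_eq 1
    rw [Finset.sum_congr rfl this, Finset.sum_ite_mem, Finset.inter_eq_right.2 (fun i hi => by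
      rw [Finset.mem_Ico] at hi; exact Finset.mem_range.2 (by omega))]
    rw [Finset.sum_const, Nat.card_Ico, nsmul_eq_mul, mul_one]
    congr 1
    omega
  have h8 : 8 ≤ 2 ^ (g + 3) := by
    rw [pow_add]; have : 1 ≤ 2 ^ g := Nat.one_le_two_pow
    omega
  rcases Nat.even_or_odd' g with ⟨k, hk | hk⟩
  · refine ⟨2 ^ 2 - 1, by omega, fun s M hs hM => ?_⟩
    rw [key 2 (by omega) le_rfl s M hs hM, show g + 2 - 1 = 2 * k + 1 by omega]
    push_cast
    linear_combination two_eq (k : ZMod 2)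
  · refine ⟨2 ^ 1 - 1, by omega, fun s M hs hM => ?_⟩
    rw [key 1 (by omega) (by omega) s M hs hM, show g + 1 - 1 = 2 * k + 1 by omega]
    push_cast
    linear_combination two_eq (k : ZMod 2)

end Pool.Agent.H.MP_6350a9_co
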