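import Pool.Agent.H.MP_32f763_nt.Rec

namespace Pool.Agent.H.MP_6350a9_co

open Polynomial Pool.Agent.H.MP_32f763_nt

def ker (a : ℕ → ℤ) : Set (ℕ → ℤ) :=
  {u | ∃ e r, r < 2 ^ e ∧ u = fun n => a (2 ^ e * n + r)}

def T2 : Module.End ℤ (ℕ → ℤ) where
  toFun u := fun n => u (2 * n)
  map_add' _ _ := rfl
  map_smul' _ _ := rfl

lemma T_mem (a : ℕ → ℤ) :
    ∀ u ∈ Submodule.span ℤ (ker a), T2 u ∈ Submodule.span ℤ (ker a) := by
  intro u hu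
  have : Submodule.map T2 (Submodule.span ℤ (ker a)) ≤ Submodule.span ℤ (ker a) := by
    rw [Submodule.map_span_le]
    rintro _ ⟨e, r, hr, rfl⟩
    refine Submodule.subset_span ⟨e + 1, r, ?_, ?_⟩
    · rw [pow_succ]
      omega
    · funext n
      change a (2 ^ e * (2 * n) + r) = _
      rw [pow_succ, mul_assoc]
  exact this ⟨u, hu, rfl⟩

lemma lin (a : ℕ → ℤ) (h : (Submodule.span ℤ (ker a)).FG) :
    ∃ P d, 0 < P ∧ ∀ e r Y, r < 2 ^ e → Gz (fun t => a (2 ^ e * (2 ^ t * Y) + r)) →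
      ∀ t, d ≤ t → ∀ x : ℕ,
      a (2 ^ e * (2 ^ (t + P * x) * Y) + r) = a (2 ^ e * (2 ^ t * Y) + r) +
        x * (a (2 ^ e * (2 ^ (t + P) * Y) + r) - a (2 ^ e * (2 ^ t * Y) + r)) := by
  have : Module.Finite ℤ (Submodule.span ℤ (ker a)) := Module.Finite.iff_fg.2 h
  let S : Module.End ℤ (Submodule.span ℤ (ker a)) := T2.restrict (T_mem a)
  obtain ⟨p, hp, hpS⟩ := LinearMap.exists_monic_and_aeval_eq_zero ℤ S
  have hpow : ∀ i (u : Submodule.span ℤ (ker a)) n, ((S ^ i) u : ℕ → ℤ) n = (u : ℕ → ℤ) (2 ^ i * n) := by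
    intro i
    induction i with
    | zero => intro u n; simp
    | succ i ih =>
      intro u n
      rw [pow_succ, Module.End.mul_apply, ih, pow_succ', mul_assoc]
      rfl
  obtain ⟨P, d, hP, hF⟩ := quasi
    {w | Gz w ∧ ∃ e r Y, r < 2 ^ e ∧ w = fun t => a (2 ^ e * (2 ^ t * Y) + r)} p hp
    (by
      rintro _ ⟨-, e, r, Y, hr, rfl⟩ t
      let u : Submodule.span ℤ (ker a) :=
        ⟨fun n => a (2 ^ e * n + r), Submodule.subset_span ⟨e, r, hr, rfl⟩⟩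
      have h1 : aeval S p u = 0 := by rw [hpS]; rfl
      rw [aeval_eq_sum_range, LinearMap.sum_apply] at h1
      have h2 := congrFun (congrArg Subtype.val h1) (2 ^ t * Y)
      rw [Submodule.coe_sum, Finset.sum_apply] at h2
      refine Eq.trans (Finset.sum_congr rfl fun i _ => ?_) h2
      rw [LinearMap.smul_apply, Submodule.coe_smul, Pi.smul_apply, hpow, smul_eq_mul]
      simp only [u]
      rw [pow_add, mul_comm (2 ^ t), mul_assoc])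
    (fun s hs => hs.1)
  exact ⟨P, d, hP, fun e r Y hr hG t ht x => hF _ ⟨hG, e, r, Y, hr, rfl⟩ t ht x⟩

lemma gz_of (s : ℕ → ℤ) (B : ℤ) (t0 : ℕ) (h : ∀ t, t0 ≤ t → |s t| ≤ B) : Gz s := by
  refine ⟨((|B| + ∑ t ∈ Finset.range t0, |s t| : ℤ) : ℝ), fun t => ?_⟩
  have h0 : 0 ≤ ∑ t ∈ Finset.range t0, |s t| := Finset.sum_nonneg fun _ _ => abs_nonneg _
  have h1 : |s t| ≤ |B| + ∑ t ∈ Finset.range t0, |s t| := by
    by_cases ht : t0 ≤ t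
    · have := h t ht
      have := le_abs_self B
      omega
    · have := Finset.single_le_sum (f := fun t => |s t|) (fun _ _ => abs_nonneg _)
        (Finset.mem_range.2 (not_le.1 ht))
      have := abs_nonneg B
      omega
  have h2 : |s t| ≤ (|B| + ∑ t ∈ Finset.range t0, |s t|) * (t + 1) := by
    have := abs_nonneg B
    nlinarith [Int.natCast_nonneg t]
  exact_mod_cast h2

theorem pump (g : ℕ) (a : ℕ → ℕ)
    (U : ∀ b T1 T2 y0 y1, 3 * g + 5 ≤ b → 4 * b + 6 ≤ T1 → 4 * b + 6 ≤ T2 →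
      ((y0 = 2 ^ b + 1 ∧ y1 = 1) ∨ (y0 = 1 ∧ y1 = 2 ^ b + 1)) →
      a (2 ^ g * (y0 + 2 ^ T1 * (y1 + 2 ^ T2))) ≤ 40 * 2 ^ (3 * b))
    (L : ∀ b T1 T2 β, 3 * g + 5 ≤ b → 4 * b + 6 ≤ T1 → 4 * b + 6 ≤ T2 → g + β ≤ b →
      2 ^ β ≤ a (2 ^ g * (1 + 2 ^ T1 * ((2 ^ b + 1) + 2 ^ T2)))) :
    ¬ (Submodule.span ℤ (ker fun n => (a n : ℤ))).FG := by
  intro h
  obtain ⟨P, D, hP, H⟩ := lin _ h
  set t0 := D + 3 * g + 5 with ht0
  set b := 3 * g + 4 * (t0 + 1) + 11 with hb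
  set Y := (2 ^ b + 1) + 2 ^ (b + (4 * b + 6)) with hY
  have e : ∀ t, 2 ^ (g + 1) * (2 ^ t * Y) + 2 ^ g =
      2 ^ g * (1 + 2 ^ (t + 1) * ((2 ^ b + 1) + 2 ^ (b + (4 * b + 6)))) := by
    intro t; rw [hY]; ring
  have up : ∀ t, 4 * b + 6 ≤ t → a (2 ^ (g + 1) * (2 ^ t * Y) + 2 ^ g) ≤ 40 * 2 ^ (3 * b) := by
    intro t ht
    rw [e]
    exact U b _ _ _ _ (by omega) (by omega) (by omega) (Or.inr ⟨rfl, rfl⟩)
  have lo : ∀ t, 4 * b + 6 ≤ t →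
      2 ^ (3 * (t0 + 1) + 6) ≤ a (2 ^ (g + 1) * (2 ^ t * Y) + 2 ^ g) := by
    intro t ht
    rw [e]
    exact L b _ _ _ (by omega) (by omega) (by omega) (by omega)
  have s0 : a (2 ^ (g + 1) * (2 ^ t0 * Y) + 2 ^ g) ≤ 40 * 2 ^ (3 * (t0 + 1)) := by
    have : 2 ^ (g + 1) * (2 ^ t0 * Y) + 2 ^ g =
        2 ^ g * ((2 ^ (t0 + 1) + 1) + 2 ^ (t0 + 1 + b) * (1 + 2 ^ (4 * b + 6))) := by
      rw [hY]; ring
    rw [this]
    exact U (t0 + 1) _ _ _ _ (by omega) (by omega) (by omega) (Or.inl ⟨rfl, rfl⟩)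
  have H1 := H (g + 1) (2 ^ g) Y (Nat.pow_lt_pow_right (by norm_num) (by omega))
    (gz_of _ (40 * 2 ^ (3 * b)) (4 * b + 6) fun t ht => by
      rw [Nat.abs_cast]
      exact_mod_cast up t ht) t0 (by omega) (40 * 2 ^ (3 * b) + (4 * b + 6) + 1)
  have ht : 4 * b + 6 ≤ t0 + P * (40 * 2 ^ (3 * b) + (4 * b + 6) + 1) := by
    have : 1 * (40 * 2 ^ (3 * b) + (4 * b + 6) + 1) ≤ P * (40 * 2 ^ (3 * b) + (4 * b + 6) + 1) :=
      Nat.mul_le_mul_right _ hP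
    have : 0 < 2 ^ (3 * b) := by positivity
    omega
  have u1 := up _ ht
  have l1 := lo _ ht
  have e6 : 2 ^ (3 * (t0 + 1) + 6) = 64 * 2 ^ (3 * (t0 + 1)) := by ring
  have p0 : 0 < 2 ^ (3 * (t0 + 1)) := by positivity
  generalize a (2 ^ (g + 1) * (2 ^ (t0 + P * (40 * 2 ^ (3 * b) + (4 * b + 6) + 1)) * Y) + 2 ^ g) = v1
    at *
  generalize a (2 ^ (g + 1) * (2 ^ t0 * Y) + 2 ^ g) = v0 at *
  generalize a (2 ^ (g + 1) * (2 ^ (t0 + P) * Y) + 2 ^ g) = v2 at *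
  have hX : v1 < 40 * 2 ^ (3 * b) + (4 * b + 6) + 1 := by omega
  have h01 : v0 < v1 := by omega
  generalize 40 * 2 ^ (3 * b) + (4 * b + 6) + 1 = X at *
  have h3 : (v1 : ℤ) < X := by exact_mod_cast hX
  have h4 : (v0 : ℤ) < v1 := by exact_mod_cast h01
  have h5 : (0 : ℤ) ≤ v0 := Int.natCast_nonneg _
  rcases le_or_gt ((v2 : ℤ) - v0) 0 with h6 | h6
  · nlinarith
  · nlinarith

end Pool.Agent.H.MP_6350a9_co
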