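import Mathlib

namespace Pool.Agent.H.MP_6350a9_co

open Classical

variable (g : ℕ) (w : ℕ → Bool)

def mt (N i : ℕ) : Prop := ∀ k, k < g → N.testBit (i + k) = w k

noncomputable def Φ (M N : ℕ) : ZMod 2 := ∑ i ∈ Finset.range M, if mt g w N i then 1 else 0

variable {g w}

lemma two_eq (a : ZMod 2) : a + a = 0 := CharTwo.add_self_eq_zero a

lemma tb {r L H j : ℕ} (hL : L < 2 ^ r) :
    (L + 2 ^ r * H).testBit j = if j < r then L.testBit j else H.testBit (j - r) := by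
  rw [add_comm, Nat.testBit_two_pow_mul_add _ hL]

lemma tb_mod {H H' k : ℕ} (h : H % 2 ^ g = H' % 2 ^ g) (hk : k < g) : H.testBit k = H'.testBit k := by
  have h1 := Nat.testBit_mod_two_pow H g k
  have h2 := Nat.testBit_mod_two_pow H' g k
  rw [h] at h1
  simpa [hk] using h1.symm.trans h2

lemma sep (M : ℕ) {r L L' H H' : ℕ} (hL : L < 2 ^ r) (hL' : L' < 2 ^ r)
    (h : H % 2 ^ g = H' % 2 ^ g) :
    Φ g w M (L + 2 ^ r * H) + Φ g w M (L' + 2 ^ r * H') =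
      Φ g w M (L + 2 ^ r * H') + Φ g w M (L' + 2 ^ r * H) := by
  unfold Φ
  rw [← Finset.sum_add_distrib, ← Finset.sum_add_distrib]
  refine Finset.sum_congr rfl fun i _ => ?_
  by_cases hi : i < r
  · have key : ∀ L, L < 2 ^ r → (mt g w (L + 2 ^ r * H) i ↔ mt g w (L + 2 ^ r * H') i) := by
      intro L hL
      refine forall_congr' fun k => forall_congr' fun hk => ?_
      rw [tb hL, tb hL]
      split_ifs with h1
      · rfl
      · rw [tb_mod h (by omega)]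
    simp only [key L hL, key L' hL']
  · have key : ∀ H, (mt g w (L + 2 ^ r * H) i ↔ mt g w (L' + 2 ^ r * H) i) := by
      intro H
      refine forall_congr' fun k => forall_congr' fun hk => ?_
      rw [tb hL, tb hL', if_neg (by omega), if_neg (by omega)]
    simp only [key H, key H']
    rw [add_comm]

/-- sum over a square -/
noncomputable def Q (g : ℕ) (w : ℕ → Bool) (M : ℕ) (f : ℕ → ℕ → ℕ) : ZMod 2 :=
  Φ g w M (f 0 0) + Φ g w M (f 1 0) + Φ g w M (f 0 1) + Φ g w M (f 1 1)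

lemma peel (M r : ℕ) (L H : ℕ → ℕ → ℕ) (hL : ∀ a b, a ≤ 1 → b ≤ 1 → L a b < 2 ^ r)
    (hH : ∀ a b, H a b % 2 ^ g = H 0 0 % 2 ^ g) :
    Q g w M (fun a b => L a b + 2 ^ r * H a b) =
      Q g w M (fun a b => L a b + 2 ^ r * H 0 0) + Q g w M (fun a b => L 0 0 + 2 ^ r * H a b) := by
  have h1 := sep (w := w) M (hL 1 0 (by omega) (by omega)) (hL 0 0 (by omega) (by omega)) (hH 1 0)
  have h2 := sep (w := w) M (hL 0 1 (by omega) (by omega)) (hL 0 0 (by omega) (by omega)) (hH 0 1)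
  have h3 := sep (w := w) M (hL 1 1 (by omega) (by omega)) (hL 0 0 (by omega) (by omega)) (hH 1 1)
  have h4 := two_eq (Φ g w M (L 0 0 + 2 ^ r * H 0 0))
  unfold Q
  linear_combination h1 + h2 + h3 - 2 * h4

lemma Q_left (M : ℕ) (f : ℕ → ℕ) : Q g w M (fun a _ => f a) = 0 := by
  unfold Q
  linear_combination two_eq (Φ g w M (f 0)) + two_eq (Φ g w M (f 1))

lemma Q_right (M : ℕ) (f : ℕ → ℕ) : Q g w M (fun _ b => f b) = 0 := by
  unfold Q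
  linear_combination two_eq (Φ g w M (f 0)) + two_eq (Φ g w M (f 1))

lemma mod_g (A B : ℕ) : (A + 2 ^ g * B) % 2 ^ g = A % 2 ^ g := Nat.add_mul_mod_self_left _ _ _

lemma lt_two {C T A r : ℕ} (hC : C < 2 ^ T) (hA : A < 2 ^ r) : C + 2 ^ T * A < 2 ^ (T + r) := by
  rw [pow_add]
  nlinarith

lemma plain (M : ℕ) {C T β u1 u2 r : ℕ} (hC : C < 2 ^ T) (hβ : β % 2 ^ r + u1 < 2 ^ r) :
    Q g w M (fun a b => C + 2 ^ T * (β + (a * u1 + b * (2 ^ (r + g) * u2)))) = 0 := by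
  have e : (fun a b => C + 2 ^ T * (β + (a * u1 + b * (2 ^ (r + g) * u2)))) =
      fun a b => (C + 2 ^ T * (β % 2 ^ r + a * u1)) +
        2 ^ (T + r) * (β / 2 ^ r + 2 ^ g * (b * u2)) := by
    funext a b
    conv_lhs => rw [← Nat.mod_add_div β (2 ^ r)]
    ring
  rw [e, peel M (T + r) (fun a _ => C + 2 ^ T * (β % 2 ^ r + a * u1))
    (fun _ b => β / 2 ^ r + 2 ^ g * (b * u2))
    (fun a b ha _ => lt_two hC (by nlinarith)) (fun a b => by simp only [mod_g])]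
  rw [Q_left M (fun a => C + 2 ^ T * (β % 2 ^ r + a * u1) +
      2 ^ (T + r) * (β / 2 ^ r + 2 ^ g * (0 * u2))),
    Q_right M (fun b => C + 2 ^ T * (β % 2 ^ r + 0 * u1) +
      2 ^ (T + r) * (β / 2 ^ r + 2 ^ g * (b * u2))), add_zero]

lemma ctx (M : ℕ) {C T y s R : ℕ} (hC : C < 2 ^ T) (hy : y < 2 ^ s) :
    Φ g w M (C + 2 ^ T * (2 ^ (g + s + g) * R)) +
      Φ g w M (C + 2 ^ T * (2 ^ g * y + 2 ^ (g + s + g) * R)) =
      Φ g w M (2 ^ (T + g) * y) + Φ g w M 0 := by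
  have h1 := sep (g := g) (w := w) M (r := T) (L := C) (L' := 0) (H := 2 ^ (g + s + g) * R)
    (H' := 2 ^ g * y + 2 ^ (g + s + g) * R) hC (by positivity) (by
      rw [add_comm (2 ^ g * y), mod_g])
  have h2 := sep (g := g) (w := w) M (r := T + g + s) (L := 2 ^ (T + g) * y) (L' := 0)
    (H := 2 ^ g * R) (H' := 0) (by
      rw [pow_add 2 (T + g)]; exact Nat.mul_lt_mul_of_pos_left hy (by positivity))
    (by positivity) (by simp)
  have e1 : 0 + 2 ^ T * (2 ^ g * y + 2 ^ (g + s + g) * R) =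
      2 ^ (T + g) * y + 2 ^ (T + g + s) * (2 ^ g * R) := by ring
  have e2 : 0 + 2 ^ T * (2 ^ (g + s + g) * R) = 0 + 2 ^ (T + g + s) * (2 ^ g * R) := by ring
  rw [e1, e2] at h1
  simp only [mul_zero, add_zero] at h2
  linear_combination h1 + h2 +
    two_eq (Φ g w M (C + 2 ^ T * (2 ^ g * y + 2 ^ (g + s + g) * R))) -
    two_eq (Φ g w M (2 ^ (T + g) * y + 2 ^ (T + g + s) * (2 ^ g * R))) +
    two_eq (Φ g w M (0 + 2 ^ (T + g + s) * (2 ^ g * R))) - two_eq (Φ g w M 0)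

lemma special (M : ℕ) {C T x z b c H : ℕ} (hC : C < 2 ^ T) (hx : 2 * x < 2 ^ (g + 3)) (hz : z < 3)
    (hb : b = g + (g + 3) + g + 2 + c) :
    Q g w M (fun a a' => C + 2 ^ T * (2 ^ (3 * b) * H + z * 2 ^ (g + (g + 3) + g) * (2 ^ b + 1) +
      (a * (2 ^ g * x) + a' * (2 ^ (b + g) * x)) * (2 ^ b + 1))) =
      Φ g w M (2 ^ (T + b + g) * (2 * x)) + Φ g w M 0 := by
  set p := g + (g + 3) + g with hp
  have hlt : ∀ a, a ≤ 2 → z * 2 ^ p + 2 ^ g * (a * x) < 2 ^ b := by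
    intro a ha
    have h1 : 2 ^ g * (a * x) < 2 ^ p := by
      calc 2 ^ g * (a * x) < 2 ^ g * 2 ^ (g + 3) :=
            Nat.mul_lt_mul_of_pos_left (by nlinarith) (by positivity)
        _ = 2 ^ (g + (g + 3)) := by rw [← pow_add]
        _ ≤ 2 ^ p := Nat.pow_le_pow_right (by norm_num) (by omega)
    have h2 : 2 ^ (p + 2) ≤ 2 ^ b := Nat.pow_le_pow_right (by norm_num) (by omega)
    rw [pow_add] at h2
    have h3 : z * 2 ^ p ≤ 2 * 2 ^ p := Nat.mul_le_mul_right _ (by omega)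
    norm_num at h2
    omega
  have e : (fun a a' => C + 2 ^ T * (2 ^ (3 * b) * H + z * 2 ^ p * (2 ^ b + 1) +
      (a * (2 ^ g * x) + a' * (2 ^ (b + g) * x)) * (2 ^ b + 1))) =
      fun a a' => (C + 2 ^ T * (z * 2 ^ p + 2 ^ g * (a * x))) + 2 ^ (T + b) *
        (z * 2 ^ p + 2 ^ b * (2 ^ b * H) + 2 ^ g * ((a + a') * x + 2 ^ b * (a' * x))) := by
    funext a a'
    ring
  rw [e, peel M (T + b) (fun a _ => C + 2 ^ T * (z * 2 ^ p + 2 ^ g * (a * x)))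
    (fun a a' => z * 2 ^ p + 2 ^ b * (2 ^ b * H) + 2 ^ g * ((a + a') * x + 2 ^ b * (a' * x)))
    (fun a _ ha _ => lt_two hC (hlt a (by omega))) (fun a b => by simp only [mod_g])]
  rw [Q_left M (fun a => C + 2 ^ T * (z * 2 ^ p + 2 ^ g * (a * x)) + 2 ^ (T + b) *
    (z * 2 ^ p + 2 ^ b * (2 ^ b * H) + 2 ^ g * ((0 + 0) * x + 2 ^ b * (0 * x)))), zero_add]
  set C1 := C + 2 ^ T * (z * 2 ^ p + 2 ^ g * (0 * x)) with hC1
  have hC1' : C1 < 2 ^ (T + b) := lt_two hC (hlt 0 (by omega))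
  have e2 : (fun a a' => C1 + 2 ^ (T + b) *
      (z * 2 ^ p + 2 ^ b * (2 ^ b * H) + 2 ^ g * ((a + a') * x + 2 ^ b * (a' * x)))) =
      fun a a' => (C1 + 2 ^ (T + b) * (z * 2 ^ p + 2 ^ g * ((a + a') * x))) + 2 ^ (T + b + b) *
        (2 ^ b * H + 2 ^ g * (a' * x)) := by
    funext a a'
    ring
  rw [e2, peel M (T + b + b) (fun a a' => C1 + 2 ^ (T + b) * (z * 2 ^ p + 2 ^ g * ((a + a') * x)))
    (fun _ a' => 2 ^ b * H + 2 ^ g * (a' * x))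
    (fun a a' ha ha' => lt_two hC1' (hlt (a + a') (by omega))) (fun a b => by simp only [mod_g])]
  rw [Q_right M (fun a' => C1 + 2 ^ (T + b) * (z * 2 ^ p + 2 ^ g * ((0 + 0) * x)) +
    2 ^ (T + b + b) * (2 ^ b * H + 2 ^ g * (a' * x))), add_zero]
  have h := ctx (g := g) (w := w) M (R := z + 2 ^ (2 + c) * (2 ^ b * H)) hC1' hx
  rw [← h]
  unfold Q
  have e3 : C1 + 2 ^ (T + b) * (z * 2 ^ p + 2 ^ g * ((0 + 0) * x)) +
      2 ^ (T + b + b) * (2 ^ b * H + 2 ^ g * (0 * x)) =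
      C1 + 2 ^ (T + b) * (2 ^ p * (z + 2 ^ (2 + c) * (2 ^ b * H))) := by
    have : 2 ^ (T + b + b) = 2 ^ (T + b) * (2 ^ p * 2 ^ (2 + c)) := by
      rw [← pow_add, ← pow_add]; congr 1; omega
    rw [this]; ring
  have e4 : C1 + 2 ^ (T + b) * (z * 2 ^ p + 2 ^ g * ((1 + 1) * x)) +
      2 ^ (T + b + b) * (2 ^ b * H + 2 ^ g * (0 * x)) =
      C1 + 2 ^ (T + b) * (2 ^ g * (2 * x) + 2 ^ p * (z + 2 ^ (2 + c) * (2 ^ b * H))) := by
    have : 2 ^ (T + b + b) = 2 ^ (T + b) * (2 ^ p * 2 ^ (2 + c)) := by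
      rw [← pow_add, ← pow_add]; congr 1; omega
    rw [this]; ring
  simp only [e3, e4, add_zero, zero_add (1 : ℕ)]
  linear_combination two_eq (Φ g w M (C1 + 2 ^ (T + b) * (z * 2 ^ p + 2 ^ g * (1 * x)) +
      2 ^ (T + b + b) * (2 ^ b * H + 2 ^ g * (0 * x))))

lemma stopper (p β β' : ℕ) : ∃ z, z < 3 ∧ (β + z * 2 ^ p) % 2 ^ (p + 2) < 3 * 2 ^ p ∧
    (β' + z * 2 ^ p) % 2 ^ (p + 2) < 3 * 2 ^ p := by
  have key : ∀ β z, (β / 2 ^ p + z) % 4 ≠ 3 → (β + z * 2 ^ p) % 2 ^ (p + 2) < 3 * 2 ^ p := by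
    intro β z h
    have h0 : 0 < 2 ^ p := by positivity
    rw [pow_add, Nat.mod_mul, Nat.add_mul_div_right _ _ h0]
    have h1 := Nat.mod_lt (β + z * 2 ^ p) h0
    have h2 : (β / 2 ^ p + z) % 2 ^ 2 ≤ 2 := by omega
    nlinarith
  have : ∃ z, z < 3 ∧ (β / 2 ^ p + z) % 4 ≠ 3 ∧ (β' / 2 ^ p + z) % 4 ≠ 3 := by
    by_cases h0 : (β / 2 ^ p + 0) % 4 ≠ 3 ∧ (β' / 2 ^ p + 0) % 4 ≠ 3
    · exact ⟨0, by omega, h0⟩
    · by_cases h1 : (β / 2 ^ p + 1) % 4 ≠ 3 ∧ (β' / 2 ^ p + 1) % 4 ≠ 3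
      · exact ⟨1, by omega, h1⟩
      · exact ⟨2, by omega, by omega⟩
  obtain ⟨z, hz, h1, h2⟩ := this
  exact ⟨z, hz, key _ _ h1, key _ _ h2⟩

lemma nowrap {A y W ρ : ℕ} (hA : A < W) (h : 2 * (ρ * y) ≤ W) :
    ∃ s A' c, s ≤ ρ ∧ A + s * y = A' + W * c ∧ A' + ρ * y < W := by
  by_cases h1 : A + ρ * y < W
  · exact ⟨0, A, 0, by omega, by simp, h1⟩
  · exact ⟨ρ, A + ρ * y - W, 1, le_rfl, by omega, by omega⟩

lemma normal (A b K : ℕ) (hb : 0 < b) : ∃ j H, j < 2 ^ K ∧ A + j * (2 ^ b + 1) = 2 ^ K * H := by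
  have hc : Nat.Coprime (2 ^ b + 1) (2 ^ K) := by
    refine Nat.Coprime.pow_right _ ((Nat.coprime_two_right).2 ?_)
    obtain ⟨b, rfl⟩ : ∃ b', b = b' + 1 := ⟨b - 1, by omega⟩
    exact ⟨2 ^ b, by ring⟩
  have : NeZero (2 ^ K) := ⟨by positivity⟩
  let u := ZMod.unitOfCoprime _ hc
  refine ⟨(-(A : ZMod (2 ^ K)) * (u⁻¹ : (ZMod (2 ^ K))ˣ)).val, ?_⟩
  have h : 2 ^ K ∣ A + (-(A : ZMod (2 ^ K)) * (u⁻¹ : (ZMod (2 ^ K))ˣ)).val * (2 ^ b + 1) := by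
    rw [← ZMod.natCast_eq_zero_iff, Nat.cast_add, Nat.cast_mul, ZMod.natCast_zmod_val,
      ← ZMod.coe_unitOfCoprime _ hc, mul_assoc, Units.inv_mul, mul_one, add_neg_cancel]
  obtain ⟨H, hH⟩ := h
  exact ⟨H, ZMod.val_lt _, hH⟩

end Pool.Agent.H.MP_6350a9_co
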